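import Mathlib

namespace Pool.Agent.Results.MP_c24244_an.AboveOne

open Set Finset

def Beta (Y : Type) [NormedAddCommGroup Y] [NormedSpace ℝ Y] (ρ : ℝ) : Prop :=
  ∃ (Λ : Type) (y : Λ → Y) (f : Λ → Y →L[ℝ] ℝ), (∀ a, ‖y a‖ = 1 ∧ ‖f a‖ = 1 ∧ f a (y a) = 1) ∧
    (∀ a b, a ≠ b → |f a (y b)| ≤ ρ) ∧ ∀ v, IsLUB (range fun a => |f a v|) ‖v‖

noncomputable def L : ℝ × ℝ →ₗ[ℝ] Fin 5 → ℝ where
  toFun p := ![p.1, p.2, -p.1 + 2 / 3 * p.2, 2 / 3 * (p.1 + p.2), 2 / 3 * p.1 - p.2]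
  map_add' p q := by funext i; fin_cases i <;> simp <;> ring
  map_smul' c p := by funext i; fin_cases i <;> simp <;> ring

def Y : Type := LinearMap.range L
noncomputable instance : NormedAddCommGroup Y := inferInstanceAs (NormedAddCommGroup (LinearMap.range L))
noncomputable instance : NormedSpace ℝ Y := inferInstanceAs (NormedSpace ℝ (LinearMap.range L))
instance : FiniteDimensional ℝ Y := inferInstanceAs (FiniteDimensional ℝ (LinearMap.range L))
instance : CompleteSpace Y := FiniteDimensional.complete ℝ Y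

noncomputable def mk (a b : ℝ) : Y := (⟨L (a, b), _, rfl⟩ : LinearMap.range L)

noncomputable def f (j : Fin 5) : Y →L[ℝ] ℝ :=
  (ContinuousLinearMap.proj j).comp (LinearMap.range L).subtypeL

theorem f_mk (j : Fin 5) (a b : ℝ) :
    f j (mk a b) = ![a, b, -a + 2 / 3 * b, 2 / 3 * (a + b), 2 / 3 * a - b] j := rfl

theorem f_le (j : Fin 5) (v : Y) : |f j v| ≤ ‖v‖ := norm_le_pi_norm v.1 j

theorem le_f (v : Y) {r : ℝ} (hr : 0 ≤ r) (h : ∀ j, |f j v| ≤ r) : ‖v‖ ≤ r :=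
  (pi_norm_le_iff_of_nonneg hr).2 h

noncomputable def y : Fin 5 → Y :=
  ![mk 1 (1 / 4), mk (1 / 4) 1, mk (-4 / 5) (3 / 10), mk (3 / 4) (3 / 4), mk (3 / 10) (-4 / 5)]

noncomputable def p : Fin 5 → Y :=
  ![mk (-1) (-1 / 2), mk 0 (-1), mk 1 0, mk (1 / 2) 1, mk (-3 / 5) (3 / 5)]

theorem beta : Beta Y (5 / 6) := by
  have h1 : ∀ a, f a (y a) = 1 := fun a => by fin_cases a <;> simp [y, f_mk] <;> norm_num
  have h2 : ∀ a b, a ≠ b → |f a (y b)| ≤ 5 / 6 := fun a b h => by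
    fin_cases a <;> fin_cases b <;> simp [y, f_mk, abs_le] at h ⊢ <;> norm_num
  have h3 : ∀ a, ‖y a‖ = 1 := fun a => le_antisymm (le_f _ zero_le_one fun j => by
    rcases eq_or_ne j a with rfl | h
    · simp [h1]
    · linarith [h2 j a h]) (by simpa [h1] using f_le a (y a))
  refine ⟨Fin 5, y, f, fun a => ⟨h3 a, le_antisymm ((f a).opNorm_le_bound zero_le_one fun v => by
    simpa using f_le a v) (by simpa [h1, h3] using (f a).le_opNorm (y a)), h1 a⟩, h2, fun v =>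
    ⟨forall_mem_range.2 fun a => f_le a v, fun r hr => le_f v
      ((abs_nonneg _).trans (hr ⟨0, rfl⟩)) fun j => hr ⟨j, rfl⟩⟩⟩

theorem p_le (i : Fin 5) : ‖p i‖ ≤ 1 := le_f _ zero_le_one fun j => by
  fin_cases i <;> fin_cases j <;> simp [p, f_mk, abs_le] <;> norm_num

def good : Fin 5 → Bool → Finset (Fin 5) :=
  ![fun s => if s then {2, 3} else {0, 4}, fun s => if s then {3, 4} else {0, 1},
    fun s => if s then {0, 4} else {1, 2}, fun s => if s then {2, 3} else {0, 1},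
    fun s => if s then {1, 2} else {3, 4}]

theorem far (j : Fin 5) (s : Bool) (i : Fin 5) (hi : i ∉ good j s) (w : Y) (hw : ‖w‖ ≤ 1)
    (h : (if s then 1 else -1) * f j w = 1) : 11 / 10 ≤ ‖p i - w‖ := by
  by_contra! hl
  obtain ⟨a, b, rfl⟩ : ∃ a b, w = mk a b := by
    obtain ⟨_, ⟨a, b⟩, rfl⟩ := w
    exact ⟨a, b, rfl⟩
  have h1 := fun k => abs_le.1 ((f_le k _).trans hw)
  have h2 := fun k => abs_lt.1 ((f_le k _).trans_lt hl)
  simp only [map_sub, Fin.forall_fin_succ, f_mk] at h1 h2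
  fin_cases j <;> cases s <;> fin_cases i <;> simp [good] at hi <;> simp [p, f_mk] at h h1 h2 <;>
    linarith [h1.1.1, h1.1.2, h1.2.1.1, h1.2.1.2, h1.2.2.1.1, h1.2.2.1.2, h1.2.2.2.1.1,
      h1.2.2.2.1.2, h1.2.2.2.2.1, h1.2.2.2.2.2, h2.1.1, h2.1.2, h2.2.1.1, h2.2.1.2, h2.2.2.1.1,
      h2.2.2.1.2, h2.2.2.2.1.1, h2.2.2.2.1.2, h2.2.2.2.2.1, h2.2.2.2.2.2]

abbrev X : Type := PiLp 1 fun _ : Fin 5 => ℝ

theorem nX (z : X) : ‖z‖ = ∑ i, |z i| := by simp [PiLp.norm_eq_of_L1]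

noncomputable def T : X →L[ℝ] Y := ∑ i, (PiLp.proj 1 (fun _ : Fin 5 => ℝ) i).smulRight (p i)

theorem T_app (z : X) : T z = ∑ i, z i • p i := by simp [T]

theorem result : ∃ (X Y : Type) (_ : NormedAddCommGroup X) (_ : NormedSpace ℝ X) (_ : CompleteSpace X)
    (_ : NormedAddCommGroup Y) (_ : NormedSpace ℝ Y) (_ : CompleteSpace Y), Beta Y (5 / 6) ∧
    ∃ (x : X) (T : X →L[ℝ] Y), ‖x‖ = 1 ∧ ‖T‖ = 1 ∧ 1 - 99 / 100 < ‖T x‖ ∧
      ∀ (z : X) (F : X →L[ℝ] Y), ‖z‖ = 1 → ‖F‖ = 1 → ‖F z‖ = 1 → 11 / 10 ≤ max ‖x - z‖ ‖T - F‖ := by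
  have Te : ∀ i, T (PiLp.single 1 i 1) = p i := fun i => by simp [T_app, Pi.single_apply]
  refine ⟨X, Y, inferInstance, inferInstance, inferInstance, inferInstance, inferInstance,
    inferInstance, beta, WithLp.toLp 1 fun _ => 1 / 5, T, by simp [nX], le_antisymm
      (T.opNorm_le_bound zero_le_one fun z => ?_) ?_, lt_of_lt_of_le ?_ (f_le 0 _),
    fun z F hz hF hFz => ?_⟩
  · rw [T_app, one_mul, nX]
    refine norm_sum_le_of_le _ fun i _ => ?_
    rw [norm_smul]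
    exact mul_le_of_le_one_right (norm_nonneg _) (p_le i)
  · have := (f_le 0 _).trans (T.le_opNorm (PiLp.single 1 0 1))
    simpa [Te, p, f_mk] using this
  · simp [T_app, Fin.sum_univ_succ, p, f_mk]
    norm_num
  by_contra! hl
  obtain ⟨j, s, hj⟩ : ∃ (j : Fin 5) (s : Bool), (if s then 1 else -1) * f j (F z) = 1 := by
    obtain ⟨j, hj⟩ := Finite.exists_max fun j => |f j (F z)|
    have := le_antisymm (f_le j _) (le_f _ (abs_nonneg _) hj)
    rcases eq_or_eq_neg_of_abs_eq (this.trans hFz) with h | h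
    exacts [⟨j, true, by simp [h]⟩, ⟨j, false, by simp [h]⟩]
  have e1 : ∀ i, ‖F (PiLp.single 1 i 1)‖ ≤ 1 := fun i => by
    simpa [hF] using F.le_opNorm (PiLp.single 1 i 1)
  let c : Fin 5 → ℝ := fun i => (if s then 1 else -1) * f j (F (PiLp.single 1 i 1))
  have c1 : ∀ i, z i * c i ≤ |z i| := fun i => (le_abs_self _).trans (by
    rw [abs_mul, abs_mul]
    exact mul_le_of_le_one_right (abs_nonneg _) (by
      cases s <;> simpa using (f_le j _).trans (e1 i)))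
  have c2 : ∑ i, z i * c i = ∑ i, |z i| := by
    have : z = ∑ i, z i • PiLp.single 1 i (1 : ℝ) := by ext k; simp [Pi.single_apply]
    rw [← nX, hz, ← hj, congrArg F this, map_sum, map_sum, mul_sum]
    exact sum_congr rfl fun i _ => by simp only [c, map_smul, smul_eq_mul]; ring
  have c3 := (sum_eq_sum_iff_of_le fun i _ => c1 i).1 c2
  have z0 : ∀ i ∉ good j s, z i ≤ 0 := fun i hi => not_lt.1 fun h => by
    have := far j s i hi _ (e1 i) (mul_left_cancel₀ h.ne'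
      ((c3 i (mem_univ _)).trans ((abs_of_pos h).trans (mul_one _).symm)))
    have h2 := (T - F).le_opNorm (PiLp.single 1 i 1)
    rw [_root_.sub_apply, Te, PiLp.norm_single, norm_one, mul_one] at h2
    linarith [le_max_right ‖(WithLp.toLp 1 fun _ => 1 / 5 : X) - z‖ ‖T - F‖]
  have : ∑ i, (|z i| + if i ∈ good j s then -1 / 5 else 1 / 5) ≤
      ‖(WithLp.toLp 1 fun _ => 1 / 5 : X) - z‖ := by
    rw [nX]
    refine sum_le_sum fun i _ => ?_
    show _ ≤ |1 / 5 - z i|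
    split_ifs with h
    · have := abs_sub_abs_le_abs_sub (z i) (1 / 5)
      rw [abs_sub_comm, abs_of_pos (by norm_num : (0 : ℝ) < 1 / 5)] at this
      linarith
    · rw [abs_of_nonpos (z0 i h)]
      linarith [le_abs_self (1 / 5 - z i)]
  rw [sum_add_distrib, ← nX, hz] at this
  have h5 : ∑ i, (if i ∈ good j s then -1 / 5 else 1 / 5 : ℝ) = 1 / 5 := by
    fin_cases j <;> cases s <;> simp [good, Fin.sum_univ_succ] <;> norm_num
  linarith [le_max_left ‖(WithLp.toLp 1 fun _ => 1 / 5 : X) - z‖ ‖T - F‖]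

end Pool.Agent.Results.MP_c24244_an.AboveOne
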